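import Pool.Agent.Results.MP_bba144_nt.SquaredTrinomialSums

/-!
# Weighted sums of squares of generalized central trinomial coefficients modulo `p²`

Full answer (yes) to Q2 of the page.  With `β = b - 2c` the weighted sum is `p * F`, `F` explicit
(`Sq_fac`).  Modulo `p` the binomial coefficients `C(p-1,i+1)` are `-C(p-1,i)`, so that `F` becomes a
combination of the products `A_{p-1}(F) A_{p-1}(G)` (`A_mul`), and the four values `A_{p-1}` of `cb`,
`sh cb`, `sh (sh cb)`, `cb'` are linked by `A_p(F) = β F 0 + c F p` (Frobenius).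
-/

set_option autoImplicit false

namespace Pool.Agent.Results.MP_bba144_nt.SquaresModPSquared

open Finset
open Pool.Agent.Results.MP_bba144_nt.SquaredTrinomialSums

section general

variable {R : Type*} [CommRing R] (β c : R)

/-- quotient in relation (1) -/
def y1 (m : ℕ) : R := -(β * Φ β c m (sh (sh cb)) cb + c * Φ β c m (sh (sh cb)) (sh cb)
    - 4 * β * Φ β c m (sh cb) cb - 4 * c * Φ β c m (sh cb) (sh cb))

lemma rel1e (m : ℕ) : (β + 2 * c) * Φ β c m (sh cb) (sh cb) = ((m : R) + 2) * y1 β c m := by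
  have h1 := Φ_th β c m (sh cb) cb
  have h2 := Φ_th β c m cb cb
  rw [th_sh_cb, Φ_lin, Φ_lin, h2, Φ_succ, Φ_succ, Φ_symm β c m cb (sh cb)] at h1
  unfold y1
  linear_combination -h1

/-- quotient in relations (2) and (3) -/
def y2 (m : ℕ) : R := -(4 * (β * Φ β c m cb cb + c * Φ β c m (sh cb) cb)
      - (β * Φ β c m (sh cb) cb + c * Φ β c m (sh cb) (sh cb)))
    + (4 * (β * Φ β c m cb' (sh cb) + c * Φ β c m (sh cb) cb)
      - β * Φ β c m (sh (sh cb)) cb' - c * Φ β c m (sh (sh cb)) cb)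

lemma rel2e (m : ℕ) : Φ β c (m + 1) cb cb - 8 * β * Φ β c m cb cb
    - 4 * c * Φ β c m (sh cb) cb = ((m : R) + 2) * y2 β c m := by
  have h1 := Φ_th β c m (cb : ℕ → R) cb
  have h2 := Φ_th β c m (cb' : ℕ → R) cb
  rw [th_cb, Φ_lin, h2, sh_cb', Φ_succ, sh_cb', Φ_symm β c m cb (sh cb)] at h1
  have h3 := Φ_th β c m (sh cb) (cb' : ℕ → R)
  have h4 := Φ_th β c m (cb : ℕ → R) cb'
  rw [th_sh_cb, Φ_lin, Φ_lin, h4, Φ_succ, Φ_succ, sh_cb', Φ_symm β c m (sh cb) cb'] at h3
  rw [Φ_succ, Φ_symm β c m cb (sh cb)]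
  unfold y2
  linear_combination h1 - h3

/-- the coefficients of the quotient -/
def Gq (y3 : ℕ → R) (i : ℕ) : R := 8 * c * Φ β c (i + 1) cb cb + 8 * β ^ 2 * Φ β c i cb cb
    + β * y2 β c i - 2 * c ^ 2 * y3 i

lemma Gq_eq (y3 : ℕ → R) (h3 : ∀ i : ℕ, Φ β c i (sh cb) (sh cb) = ((i : R) + 2) * y3 i) (i : ℕ) :
    (8 * c * ((i : R) + 1) + 6 * c + β) * Φ β c (i + 1) cb cb
        + 8 * ((i : R) + 1) * β ^ 2 * Φ β c i cb cb = ((i : R) + 2) * Gq β c y3 i := by
  have hs := Φ_succ β c i cb cb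
  rw [Φ_symm β c i cb (sh cb)] at hs
  have hy2 := rel2e β c i
  have hy3 := h3 i
  unfold Gq
  linear_combination β * hy2 - 2 * c ^ 2 * hy3 - 2 * c * hs

/-- the quotient of the weighted sum by `n + 1` -/
def FF (y3 : ℕ → R) (n : ℕ) : R := β ^ (2 * n) * Φ β c 0 cb cb * (6 * c + β)
    + ∑ i ∈ range n, β ^ (2 * (n - (i + 1))) * c ^ (i + 1) * (n.choose (i + 1) : R) * Gq β c y3 i

lemma Sq_fac (y3 : ℕ → R) (h3 : ∀ i : ℕ, Φ β c i (sh cb) (sh cb) = ((i : R) + 2) * y3 i) (n : ℕ) :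
    Sq β c (n + 1) = ((n : R) + 1) * FF β c y3 n := by
  rw [Sq_eq']
  unfold FF
  rw [mul_add ((n : R) + 1), mul_sum]
  congr 1
  · ring
  · apply sum_congr rfl
    intro i _
    have hch : ((i : R) + 2) * ((n + 1).choose (i + 2) : R) = ((n : R) + 1) * (n.choose (i + 1) : R) := by
      have h := Nat.add_one_mul_choose_eq n (i + 1)
      have h' := congrArg (fun z : ℕ => (z : R)) h
      push_cast at h'
      rw [h']
      ring
    rw [Gq_eq β c y3 h3 i]
    linear_combination (β ^ (2 * (n - (i + 1))) * c ^ (i + 1) * Gq β c y3 i) * hch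

lemma map_Φ {S : Type*} [CommRing S] (f : R →+* S) (m : ℕ) : ∀ F G : ℕ → R,
    f (Φ β c m F G) = Φ (f β) (f c) m (fun k => f (F k)) (fun k => f (G k)) := by
  induction m with
  | zero => intro F G; simp [Φ]
  | succ m ih =>
    intro F G
    rw [Φ_succ, Φ_succ, map_add, map_add, map_mul, map_mul, map_mul, ih, ih, ih]
    rfl

lemma map_cb {S : Type*} [CommRing S] (f : R →+* S) : (fun k => f ((cb : ℕ → R) k)) = (cb : ℕ → S) := by
  funext k
  simp [cb]

lemma map_cb' {S : Type*} [CommRing S] (f : R →+* S) :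
    (fun k => f ((cb' : ℕ → R) k)) = (cb' : ℕ → S) := by
  funext k
  by_cases h : k = 0 <;> simp [cb', h]

lemma map_shcb {S : Type*} [CommRing S] (f : R →+* S) :
    (fun k => f (sh (cb : ℕ → R) k)) = sh (cb : ℕ → S) := by
  funext k
  simp [cb, sh]

lemma map_shshcb {S : Type*} [CommRing S] (f : R →+* S) :
    (fun k => f (sh (sh (cb : ℕ → R)) k)) = sh (sh (cb : ℕ → S)) := by
  funext k
  simp [cb, sh]

lemma map_y1 {S : Type*} [CommRing S] (f : R →+* S) (m : ℕ) :
    f (y1 β c m) = y1 (f β) (f c) m := by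
  unfold y1
  simp only [map_neg, map_sub, map_add, map_mul, map_Φ, map_cb, map_shcb, map_shshcb, map_ofNat]

lemma map_y2 {S : Type*} [CommRing S] (f : R →+* S) (m : ℕ) :
    f (y2 β c m) = y2 (f β) (f c) m := by
  unfold y2
  simp only [map_neg, map_sub, map_add, map_mul, map_Φ, map_cb, map_cb', map_shcb, map_shshcb,
    map_ofNat]

lemma map_FF {S : Type*} [CommRing S] (f : R →+* S) (y3 : ℕ → R) (n : ℕ) :
    f (FF β c y3 n) = FF (f β) (f c) (fun i => f (y3 i)) n := by
  unfold FF Gq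
  simp only [map_sub, map_add, map_mul, map_pow, map_sum, map_natCast, map_Φ, map_cb, map_y2,
    map_ofNat]

end general

/-! ### Modulo `p` -/

section modp

variable {p : ℕ} [Fact p.Prime]

/-- the value of `A_p` -/
lemma A_p (β c : ZMod p) (F : ℕ → ZMod p) : A β c p F = β * F 0 + c * F p := by
  unfold A
  have hp := (Fact.out : p.Prime)
  rw [sum_range_succ, sum_eq_single 0]
  · simp [ZMod.pow_card]
  · intro k hk hk0
    have h1 : k < p := mem_range.1 hk
    have h2 : ((p.choose k : ℕ) : ZMod p) = 0 := by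
      rw [ZMod.natCast_eq_zero_iff]
      exact hp.dvd_choose_self hk0 h1
    rw [h2]
    ring
  · intro h
    exact absurd (mem_range.2 hp.pos) h

lemma choose_pred (n : ℕ) (hn : p = n + 1) (i : ℕ) (hi : i < n) :
    ((n.choose (i + 1) : ℕ) : ZMod p) = -((n.choose i : ℕ) : ZMod p) := by
  have hp := (Fact.out : p.Prime)
  have h2 : (((n + 1).choose (i + 1) : ℕ) : ZMod p) = 0 := by
    rw [ZMod.natCast_eq_zero_iff, ← hn]
    exact hp.dvd_choose_self (by omega) (by omega)
  rw [Nat.choose_succ_succ] at h2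
  push_cast at h2
  linear_combination h2

lemma choose_pred' (n : ℕ) (hn : p = n + 1) (i : ℕ) (hi : i ≤ n) :
    ((n.choose i : ℕ) : ZMod p) = (-1) ^ i := by
  induction i with
  | zero => simp
  | succ i ih =>
    rw [choose_pred n hn i (by omega), ih (by omega), pow_succ]
    ring

/-- `C(2k,k) = (-4)^k C(h,k)` modulo `p = 2h+1` -/
lemma cb_eq (h : ℕ) (hh : p = 2 * h + 1) (k : ℕ) (hk : k < p) :
    (cb k : ZMod p) = (-4) ^ k * ((h.choose k : ℕ) : ZMod p) := by
  induction k with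
  | zero => simp [cb]
  | succ k ih =>
    have ih' := ih (by omega)
    have h1 := cb_rec (R := ZMod p) k
    have hne : ((k : ZMod p) + 1) ≠ 0 := by
      intro h0
      have : (((k + 1 : ℕ)) : ZMod p) = 0 := by push_cast; exact h0
      rw [ZMod.natCast_eq_zero_iff] at this
      exact absurd (Nat.le_of_dvd (by omega) this) (by omega)
    have hp0 : (2 * (h : ZMod p) + 1) = 0 := by
      have : ((2 * h + 1 : ℕ) : ZMod p) = 0 := by rw [← hh]; exact ZMod.natCast_self p
      push_cast at this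
      exact this
    have h2 : ((k : ZMod p) + 1) * ((h.choose (k + 1) : ℕ) : ZMod p)
        = ((h : ZMod p) - k) * ((h.choose k : ℕ) : ZMod p) := by
      have := mul_choose_cast (R := ZMod p) h k
      linear_combination -this
    apply mul_left_cancel₀ hne
    rw [h1, ih']
    have e : (-4 : ZMod p) ^ (k + 1) = (-4) ^ k * (-4) := pow_succ _ _
    rw [e]
    linear_combination (4 * (-4) ^ k) * h2 + 2 * (-4) ^ k * ((h.choose k : ℕ) : ZMod p) * hp0

/-- the value of `A_{p-1}` at the central binomial coefficients -/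
lemma A_cb (h : ℕ) (hh : p = 2 * h + 1) (β c : ZMod p) :
    A β c (2 * h) cb = (β * (β + 4 * c)) ^ h := by
  unfold A
  have h1 : ∀ k ∈ range (2 * h + 1), (((2 * h).choose k : ℕ) : ZMod p) * β ^ (2 * h - k) * c ^ k * cb k
      = β ^ (2 * h - k) * (4 * c) ^ k * ((h.choose k : ℕ) : ZMod p) := by
    intro k hk
    have hk' : k < 2 * h + 1 := mem_range.1 hk
    rw [choose_pred' (2 * h) hh k (by omega), cb_eq h hh k (by omega), mul_pow]
    have e : (-4 : ZMod p) ^ k = (-1) ^ k * 4 ^ k := by rw [← mul_pow]; norm_num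
    have e2 : ((-1 : ZMod p) ^ k) * (-1) ^ k = 1 := by rw [← mul_pow]; norm_num
    rw [e]
    linear_combination (β ^ (2 * h - k) * c ^ k * 4 ^ k * ((h.choose k : ℕ) : ZMod p)) * e2
  rw [sum_congr rfl h1]
  have h2 : ∑ k ∈ range (2 * h + 1), β ^ (2 * h - k) * (4 * c) ^ k * ((h.choose k : ℕ) : ZMod p)
      = ∑ k ∈ range (h + 1), β ^ (2 * h - k) * (4 * c) ^ k * ((h.choose k : ℕ) : ZMod p) := by
    symm
    apply sum_subset (Finset.range_subset_range.mpr (by omega))
    intro k _ hk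
    rw [Nat.choose_eq_zero_of_lt (by simpa using hk)]
    simp
  rw [h2, mul_pow, add_comm β, add_pow, mul_sum]
  apply sum_congr rfl
  intro k hk
  have hk' : k ≤ h := by have := mem_range.1 hk; omega
  rw [show 2 * h - k = h + (h - k) by omega, pow_add]
  ring

lemma cb_p : (cb p : ZMod p) = 2 := by
  have hp := (Fact.out : p.Prime)
  have h := Choose.choose_modEq_choose_mod_mul_choose_div_nat (n := 2 * p) (k := p) (p := p)
  have e1 : 2 * p % p = 0 := Nat.mul_mod_left 2 p
  have e2 : 2 * p / p = 2 := Nat.mul_div_cancel 2 hp.pos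
  rw [e1, e2, Nat.mod_self, Nat.div_self hp.pos] at h
  have h' := (ZMod.natCast_eq_natCast_iff _ _ p).2 h
  simp only [cb]
  rw [h']
  norm_num

lemma cb_p1 (hp2 : p ≠ 2) : (cb (p + 1) : ZMod p) = 4 := by
  have hp := (Fact.out : p.Prime)
  have h3 : 3 ≤ p := by
    have := hp.two_le
    omega
  have h := Choose.choose_modEq_choose_mod_mul_choose_div_nat (n := 2 * (p + 1)) (k := p + 1) (p := p)
  have e0 : 2 * (p + 1) = 2 + p * 2 := by ring
  have e0' : p + 1 = 1 + p * 1 := by ring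
  have e1 : 2 * (p + 1) % p = 2 := by
    rw [e0, Nat.add_mul_mod_self_left, Nat.mod_eq_of_lt (by omega)]
  have e2 : 2 * (p + 1) / p = 2 := by
    rw [e0, Nat.add_mul_div_left _ _ hp.pos, Nat.div_eq_of_lt (by omega)]
  have e3 : (p + 1) % p = 1 := by
    rw [e0', Nat.add_mul_mod_self_left, Nat.mod_eq_of_lt (by omega)]
  have e4 : (p + 1) / p = 1 := by
    rw [e0', Nat.add_mul_div_left _ _ hp.pos, Nat.div_eq_of_lt (by omega)]
  rw [e1, e2, e3, e4] at h
  have h' := (ZMod.natCast_eq_natCast_iff _ _ p).2 h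
  simp only [cb]
  rw [h']
  norm_num

/-- the quotient modulo `p` -/
theorem FF_mod (h : ℕ) (hh : p = 2 * h + 1) (β c : ZMod p) (hβ : β ≠ 0)
    (hb : β + 2 * c ≠ 0) (y3 : ℕ → ZMod p)
    (h3 : ∀ i : ℕ, Φ β c i (sh cb) (sh cb) = ((i : ZMod p) + 2) * y3 i)
    (h1 : ∀ i : ℕ, (β + 2 * c) * y3 i = y1 β c i) :
    FF β c y3 (2 * h) = (β + 4 * c) * (β * (β + 4 * c)) ^ h := by
  have hp := (Fact.out : p.Prime)
  have hp2 : p ≠ 2 := by omega
  have hh1 : 1 ≤ h := by
    have := hp.two_le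
    omega
  set n : ℕ := 2 * h with hn
  set a0 : ZMod p := A β c n cb with ha0
  set a1 : ZMod p := A β c n (sh cb) with ha1
  set a2 : ZMod p := A β c n (sh (sh cb)) with ha2
  set a' : ZMod p := A β c n cb' with ha'
  have ha0e : a0 = (β * (β + 4 * c)) ^ h := A_cb h hh β c
  have hAp : ∀ F : ℕ → ZMod p, β * A β c n F + c * A β c n (sh F) = β * F 0 + c * F p := by
    intro F
    rw [← A_succ, ← A_p]
    exact congrArg (fun m => A β c m F) hh.symm
  have E1 : c * a1 = (β + 2 * c) - β * a0 := by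
    have h := hAp cb
    rw [cb_p] at h
    have e : (cb 0 : ZMod p) = 1 := by simp [cb]
    rw [e] at h
    linear_combination h
  have E2 : c * a2 = 2 * (β + 2 * c) - β * a1 := by
    have h := hAp (sh cb)
    have e : (sh cb 0 : ZMod p) = 2 := by simp [cb, sh]
    have e' : (sh cb p : ZMod p) = 4 := cb_p1 hp2
    rw [e, e'] at h
    linear_combination h
  have E3 : β * a' = -(c * a0) := by
    have hE := hAp cb'
    have e : (cb' 0 : ZMod p) = 0 := by simp [cb']
    have e' : (cb' p : ZMod p) = 0 := by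
      have h0 : (cb' p : ZMod p) = cb n := by
        simp only [cb', cb]
        rw [if_neg hp.ne_zero, show p - 1 = n by omega]
      rw [h0, cb_eq h hh n (by omega), Nat.choose_eq_zero_of_lt (by omega)]
      simp
    rw [e, e', sh_cb'] at hE
    linear_combination hE
  -- the linear functional
  let Λ : (ℕ → ZMod p) →ₗ[ZMod p] ZMod p :=
    { toFun := fun W => ∑ i ∈ range (n + 1), ((n.choose i : ℕ) : ZMod p) * β ^ (2 * (n - i)) * c ^ i * W i
      map_add' := by
        intro W V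
        rw [← sum_add_distrib]
        apply sum_congr rfl
        intro i _
        simp only [Pi.add_apply]
        ring
      map_smul' := by
        intro x W
        simp only [RingHom.id_apply, smul_eq_mul]
        rw [mul_sum]
        apply sum_congr rfl
        intro i _
        simp only [Pi.smul_apply, smul_eq_mul]
        ring }
  have hΛ0 : ∀ W, Λ W = ∑ i ∈ range (n + 1), ((n.choose i : ℕ) : ZMod p) * β ^ (2 * (n - i)) * c ^ i * W i :=
    fun W => rfl
  have hΛ : ∀ F G : ℕ → ZMod p, Λ (fun i => Φ β c i F G) = A β c n F * A β c n G := by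
    intro F G
    rw [hΛ0, A_mul]
  have hpow : β ^ n = 1 := by
    have := ZMod.pow_card_sub_one_eq_one hβ
    rwa [show p - 1 = n by omega] at this
  have hcp : c * c ^ n = c := by
    rw [← pow_succ', show n + 1 = p by omega, ZMod.pow_card]
  -- the last coefficient
  have hΦp : c * Φ β c p cb cb = 4 * c * (β + c) := by
    have h := A_mul β c p cb cb
    rw [sum_range_succ, sum_eq_single 0] at h
    · have e : A β c p (cb : ℕ → ZMod p) = β + 2 * c := by
        rw [A_p, cb_p]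
        have : (cb 0 : ZMod p) = 1 := by simp [cb]
        rw [this]
        ring
      have e2 : Φ β c 0 (cb : ℕ → ZMod p) cb = 1 := by simp [Φ, cb]
      rw [e, e2] at h
      simp only [Nat.choose_zero_right, Nat.cast_one, one_mul, Nat.sub_zero, pow_zero, mul_one,
        Nat.choose_self, Nat.sub_self, mul_zero] at h
      rw [mul_comm 2 p, pow_mul, ZMod.pow_card, ZMod.pow_card] at h
      linear_combination -h
    · intro k hk hk0
      have h1 : k < p := mem_range.1 hk
      have h2 : ((p.choose k : ℕ) : ZMod p) = 0 := by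
        rw [ZMod.natCast_eq_zero_iff]
        exact hp.dvd_choose_self hk0 h1
      rw [h2]
      ring
    · intro h
      exact absurd (mem_range.2 hp.pos) h
  have hQn : c * Gq β c y3 n = (6 * c + β) * (4 * c * (β + c)) := by
    have h := Gq_eq β c y3 h3 n
    have hp0 : (n : ZMod p) + 1 = 0 := by
      have : ((n + 1 : ℕ) : ZMod p) = 0 := by rw [← hh]; exact ZMod.natCast_self p
      push_cast at this
      exact this
    have e : Φ β c (n + 1) (cb : ℕ → ZMod p) cb = Φ β c p cb cb :=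
      congrArg (fun m => Φ β c m (cb : ℕ → ZMod p) cb) hh.symm
    rw [e] at h
    linear_combination (-c) * h + (6 * c + β) * hΦp
      + (c * (8 * c * Φ β c p cb cb + 8 * β ^ 2 * Φ β c n cb cb - Gq β c y3 n)) * hp0
  -- the sum
  have hS : β ^ 2 * ∑ i ∈ range n, β ^ (2 * (n - (i + 1))) * c ^ (i + 1) * ((n.choose (i + 1) : ℕ) : ZMod p)
        * Gq β c y3 i = -(c * Λ (Gq β c y3)) + c * c ^ n * Gq β c y3 n := by
    rw [hΛ0, sum_range_succ, mul_sum]
    have e : ∀ i ∈ range n, β ^ 2 * (β ^ (2 * (n - (i + 1))) * c ^ (i + 1)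
        * ((n.choose (i + 1) : ℕ) : ZMod p) * Gq β c y3 i)
        = -(c * (((n.choose i : ℕ) : ZMod p) * β ^ (2 * (n - i)) * c ^ i * Gq β c y3 i)) := by
      intro i hi
      have hi' : i < n := mem_range.1 hi
      rw [choose_pred n hh i hi', show 2 * (n - i) = 2 * (n - (i + 1)) + 2 by omega, pow_add, pow_succ]
      ring
    rw [sum_congr rfl e, sum_neg_distrib, mul_add, mul_sum]
    simp only [Nat.choose_self, Nat.cast_one, one_mul, Nat.sub_self, mul_zero, pow_zero]
    ring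
  have hLQ : (β + 2 * c) * Λ (Gq β c y3) =
      (β + 2 * c) * (8 * c * (β * (a1 * a0) + β * (a0 * a1) + c * (a1 * a1)) + 8 * β ^ 2 * (a0 * a0)
        + β * (-(4 * (β * (a0 * a0) + c * (a1 * a0)) - (β * (a1 * a0) + c * (a1 * a1)))
          + (4 * (β * (a' * a1) + c * (a1 * a0)) - β * (a2 * a') - c * (a2 * a0))))
      - 2 * c ^ 2 * (-(β * (a2 * a0) + c * (a2 * a1) - 4 * β * (a1 * a0) - 4 * c * (a1 * a1))) := by
    have e : (β + 2 * c) • Gq β c y3 =
        (β + 2 * c) • ((8 * c) • (β • (fun i => Φ β c i (sh cb) cb) + β • (fun i => Φ β c i cb (sh cb))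
            + c • (fun i => Φ β c i (sh cb) (sh cb))) + (8 * β ^ 2) • (fun i => Φ β c i cb cb)
          + β • (-((4 : ZMod p) • (β • (fun i => Φ β c i cb cb) + c • (fun i => Φ β c i (sh cb) cb))
              - (β • (fun i => Φ β c i (sh cb) cb) + c • (fun i => Φ β c i (sh cb) (sh cb))))
            + ((4 : ZMod p) • (β • (fun i => Φ β c i cb' (sh cb)) + c • (fun i => Φ β c i (sh cb) cb))
              - β • (fun i => Φ β c i (sh (sh cb)) cb') - c • (fun i => Φ β c i (sh (sh cb)) cb))))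
        - (2 * c ^ 2) • (-(β • (fun i => Φ β c i (sh (sh cb)) cb)
            + c • (fun i => Φ β c i (sh (sh cb)) (sh cb))
            - (4 * β) • (fun i => Φ β c i (sh cb) cb) - (4 * c) • (fun i => Φ β c i (sh cb) (sh cb)))) := by
      funext i
      have hy := h1 i
      unfold y1 at hy
      simp only [Pi.smul_apply, Pi.add_apply, Pi.sub_apply, Pi.neg_apply, smul_eq_mul, Gq, y2, Φ_succ]
      linear_combination (-(2 * c ^ 2)) * hy
    have e2 := congrArg Λ e
    rw [map_smul, smul_eq_mul] at e2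
    rw [e2]
    simp only [map_add, map_sub, map_neg, map_smul, smul_eq_mul, hΛ, ha0, ha1, ha2, ha']
  have H1 : c * (8 * c * (2 * β * (a0 * a1) + c * (a1 * a1)) + 8 * β ^ 2 * (a0 * a0))
      = 8 * c * (β + 2 * c) ^ 2 := by
    linear_combination (8 * c * (2 * β * a0 + c * a1 + ((β + 2 * c) - β * a0))) * E1
  have H2 : c * (-(4 * (β * (a0 * a0) + c * (a1 * a0)) - (β * (a1 * a0) + c * (a1 * a1)))
          + (4 * (β * (a' * a1) + c * (a1 * a0)) - β * (a2 * a') - c * (a2 * a0)))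
      = (β + 2 * c) ^ 2 - a0 * (β + 2 * c) * (β + 4 * c) := by
    linear_combination (4 * c * a1 - c * a2) * E3
      + (c * a1 + ((β + 2 * c) - β * a0) + a0 * (β - 4 * c)) * E1
  have H3 : c ^ 2 * (4 * a1 - a2) = (β + 2 * c) ^ 2 - β * a0 * (β + 4 * c) := by
    linear_combination (4 * c + β) * E1 - c * E2
  have hfin : β ^ 2 * (β + 2 * c) * FF β c y3 n = β ^ 2 * (β + 2 * c) * ((β + 4 * c) * a0) := by
    unfold FF
    have e0 : Φ β c 0 (cb : ℕ → ZMod p) cb = 1 := by simp [Φ, cb]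
    have e1 : β ^ (2 * n) = 1 := by rw [mul_comm, pow_mul, hpow, one_pow]
    rw [e0, e1]
    have hcc : c * c ^ n * Gq β c y3 n = (6 * c + β) * (4 * c * (β + c)) := by
      rw [hcp, hQn]
    linear_combination (β + 2 * c) * hS + (β + 2 * c) * hcc - c * hLQ - (β + 2 * c) * H1
      - β * (β + 2 * c) * H2 + 2 * c * (β + 2 * c) * H3 + 2 * c ^ 3 * (4 * a1 - a2) * E1
  have hne : β ^ 2 * (β + 2 * c) ≠ 0 := mul_ne_zero (pow_ne_zero 2 hβ) hb
  have := mul_left_cancel₀ hne hfin
  rw [this, ha0e]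

end modp

/-- an integer quotient of the functional at `XY`, from the divisibility in `ℤ[X]` -/
lemma exists_y3 (β c : ℤ) : ∃ y3 : ℕ → ℤ, ∀ i : ℕ,
    Φ β c i (sh cb) (sh cb) = ((i : ℤ) + 2) * y3 i := by
  have h : ∀ i : ℕ, ∃ y : ℤ, Φ β c i (sh cb) (sh cb) = ((i : ℤ) + 2) * y := by
    intro i
    obtain ⟨g, hg⟩ := H_poly c i
    have h := congrArg (Polynomial.evalRingHom β) hg
    rw [map_Φ, map_shcb, map_mul] at h
    refine ⟨Polynomial.evalRingHom β g, ?_⟩
    simpa using h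
  choose y hy using h
  exact ⟨y, hy⟩

/-- **Q2 is true**: for all integers `b`, `c` and every odd prime `p` not dividing `b (b - 2c)`,
`∑_{j<p} (8cj+4c+b) T_j(b,c²)² / (b-2c)^(2j) ≡ p (b+2c) ((b²-4c²)/p) (mod p²)` in `ℤ_(p)`: the
difference of the two sides, multiplied by some integer prime to `p`, is an integer multiple of `p²`. -/
theorem result (b c : ℤ) (p : ℕ) [Fact p.Prime] (hp2 : p ≠ 2) (hb : ¬ (p : ℤ) ∣ b * (b - 2 * c)) :
    ∃ m k : ℤ, ¬ (p : ℤ) ∣ m ∧
      (m : ℚ) * ((∑ j ∈ range p, (8 * (c : ℚ) * (j : ℚ) + 4 * (c : ℚ) + (b : ℚ))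
          * ((T b (c ^ 2) j : ℤ) : ℚ) ^ 2 / ((b : ℚ) - 2 * (c : ℚ)) ^ (2 * j))
        - (p : ℚ) * ((b : ℚ) + 2 * (c : ℚ)) * ((legendreSym p (b ^ 2 - 4 * c ^ 2) : ℤ) : ℚ))
      = (p : ℚ) ^ 2 * (k : ℚ) := by
  have hp := (Fact.out : p.Prime)
  have hpint : Prime (p : ℤ) := Nat.prime_iff_prime_int.mp hp
  obtain ⟨h, hh⟩ : ∃ h, p = 2 * h + 1 := by
    have := hp.eq_two_or_odd'
    rcases this with h2 | h2
    · exact absurd h2 hp2
    · obtain ⟨h, hh⟩ := h2
      exact ⟨h, hh⟩
  have hb1 : ¬ (p : ℤ) ∣ b := fun h => hb (Dvd.dvd.mul_right h _)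
  have hb2 : ¬ (p : ℤ) ∣ (b - 2 * c) := fun h => hb (Dvd.dvd.mul_left h _)
  have hβ0 : (b - 2 * c) ≠ 0 := fun h0 => hb2 (by rw [h0]; exact dvd_zero _)
  obtain ⟨y3, hy3⟩ := exists_y3 (b - 2 * c) c
  have hSq := Sq_fac (b - 2 * c) c y3 hy3 (2 * h)
  have hpc : ((2 * h : ℕ) : ℤ) + 1 = (p : ℤ) := by rw [hh]; push_cast; ring
  rw [hpc] at hSq
  set F : ℤ := FF (b - 2 * c) c y3 (2 * h) with hF
  -- the quotient modulo p
  have hmod : ((F : ℤ) : ZMod p) = (((b + 2 * c) * (b - 2 * c) ^ (2 * (2 * h))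
      * legendreSym p (b ^ 2 - 4 * c ^ 2) : ℤ) : ZMod p) := by
    have h1 := map_FF (b - 2 * c) c (Int.castRingHom (ZMod p)) y3 (2 * h)
    have hβK : ((Int.castRingHom (ZMod p)) (b - 2 * c)) ≠ 0 := by
      intro h0
      apply hb2
      rw [← ZMod.intCast_zmod_eq_zero_iff_dvd]
      simpa using h0
    have hbK : ((Int.castRingHom (ZMod p)) (b - 2 * c)) + 2 * (Int.castRingHom (ZMod p)) c ≠ 0 := by
      intro h0
      apply hb1
      rw [← ZMod.intCast_zmod_eq_zero_iff_dvd]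
      have e : ((Int.castRingHom (ZMod p)) (b - 2 * c)) + 2 * (Int.castRingHom (ZMod p)) c
          = ((b : ℤ) : ZMod p) := by
        simp
      rw [← e]
      exact h0
    have h3 : ∀ i : ℕ, Φ ((Int.castRingHom (ZMod p)) (b - 2 * c)) ((Int.castRingHom (ZMod p)) c) i
        (sh cb) (sh cb) = ((i : ZMod p) + 2) * (Int.castRingHom (ZMod p)) (y3 i) := by
      intro i
      have h := congrArg (Int.castRingHom (ZMod p)) (hy3 i)
      rw [map_Φ, map_shcb, map_mul] at h
      rw [h]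
      simp
    have h1' : ∀ i : ℕ, ((Int.castRingHom (ZMod p)) (b - 2 * c) + 2 * (Int.castRingHom (ZMod p)) c)
        * (Int.castRingHom (ZMod p)) (y3 i)
        = y1 ((Int.castRingHom (ZMod p)) (b - 2 * c)) ((Int.castRingHom (ZMod p)) c) i := by
      intro i
      have h4 : ((b - 2 * c) + 2 * c) * y3 i = y1 (b - 2 * c) c i := by
        have h5 := rel1e (b - 2 * c) c i
        rw [hy3 i] at h5
        have h6 : ((i : ℤ) + 2) ≠ 0 := by positivity
        apply mul_left_cancel₀ h6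
        linear_combination h5
      have h7 := congrArg (Int.castRingHom (ZMod p)) h4
      rw [map_y1, map_mul, map_add, map_mul] at h7
      rw [← h7]
      simp
    have h2 := FF_mod h hh ((Int.castRingHom (ZMod p)) (b - 2 * c)) ((Int.castRingHom (ZMod p)) c)
      hβK hbK (fun i => (Int.castRingHom (ZMod p)) (y3 i)) h3 h1'
    rw [← h1] at h2
    have h8 := legendreSym.eq_pow p (b ^ 2 - 4 * c ^ 2)
    have h9 : p / 2 = h := by omega
    rw [h9] at h8
    have h10 : ((b - 2 * c : ℤ) : ZMod p) ^ (2 * (2 * h)) = 1 := by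
      have := ZMod.pow_card_sub_one_eq_one (p := p) (a := ((b - 2 * c : ℤ) : ZMod p)) (by simpa using hβK)
      rw [show p - 1 = 2 * h by omega] at this
      rw [mul_comm 2 (2 * h), pow_mul, this, one_pow]
    have h11 : ((F : ℤ) : ZMod p) = (Int.castRingHom (ZMod p)) F := rfl
    rw [h11, hF, h2]
    push_cast at h8 h10 ⊢
    rw [h8, h10]
    simp only [Int.coe_castRingHom]
    push_cast
    ring
  have hdvd : (p : ℤ) ∣ F - (b + 2 * c) * (b - 2 * c) ^ (2 * (2 * h))
      * legendreSym p (b ^ 2 - 4 * c ^ 2) := by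
    rw [← ZMod.intCast_zmod_eq_zero_iff_dvd]
    push_cast at hmod ⊢
    rw [hmod]
    ring
  obtain ⟨k, hk⟩ := hdvd
  refine ⟨(b - 2 * c) ^ (2 * (2 * h)), k, ?_, ?_⟩
  · intro h0
    exact hb2 (hpint.dvd_of_dvd_pow h0)
  · have hβQ : ((b : ℚ) - 2 * (c : ℚ)) ≠ 0 := by
      have : (((b - 2 * c : ℤ)) : ℚ) ≠ 0 := by exact_mod_cast hβ0
      push_cast at this
      exact this
    -- the weighted sum in ℚ
    have hsum : (((b - 2 * c : ℤ) : ℚ)) ^ (2 * (2 * h)) *
        (∑ j ∈ range p, (8 * (c : ℚ) * (j : ℚ) + 4 * (c : ℚ) + (b : ℚ))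
          * ((T b (c ^ 2) j : ℤ) : ℚ) ^ 2 / ((b : ℚ) - 2 * (c : ℚ)) ^ (2 * j))
        = ((Sq (b - 2 * c) c (2 * h + 1) : ℤ) : ℚ) := by
      unfold Sq
      rw [mul_sum, Int.cast_sum, ← hh]
      apply sum_congr rfl
      intro j hj
      have hj' : j < p := mem_range.1 hj
      rw [T_eq]
      push_cast
      have e : 2 * (2 * h) = 2 * (p - 1 - j) + 2 * j := by omega
      rw [e, pow_add]
      field_simp
      ring
    have hkQ : ((F : ℤ) : ℚ) - ((b : ℚ) + 2 * c) * ((b : ℚ) - 2 * c) ^ (2 * (2 * h))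
        * ((legendreSym p (b ^ 2 - 4 * c ^ 2) : ℤ) : ℚ) = (p : ℚ) * (k : ℚ) := by
      exact_mod_cast hk
    have hSqQ : ((Sq (b - 2 * c) c (2 * h + 1) : ℤ) : ℚ) = (p : ℚ) * ((F : ℤ) : ℚ) := by
      exact_mod_cast hSq
    rw [mul_sub]
    have e1 : (((b - 2 * c) ^ (2 * (2 * h)) : ℤ) : ℚ) = (((b - 2 * c : ℤ) : ℚ)) ^ (2 * (2 * h)) := by
      push_cast
      ring
    rw [e1, hsum, hSqQ]
    push_cast
    linear_combination (p : ℚ) * hkQ

end Pool.Agent.Results.MP_bba144_nt.SquaresModPSquared
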